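import Pool.Agent.Helper66_ML.Stmts
import Pool.Agent.Helper43_DF.Fst
import Pool.Agent.Helper66_DF.FinE
import Pool.Agent.Helper9_D1.Inv

/-!
# Squad ML, module FIN: the alternating sum modulo `ℓ |O_ℓ(G)|`
-/

open scoped BigOperators

set_option linter.unusedSectionVars false

noncomputable section

namespace Pool.Agent.PP.ML.H77

open Pool.Agent.Helper51_AWC Pool.Agent.Helper79_WRA Pool.Agent.PP Pool.Agent.PP.ML

/-- divisibility of `YY` follows from divisibility for the blocks -/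
theorem add_dvd {ℓ : ℕ} {F : Type} [Field F] (hF : GoodF ℓ F) {G : Type} [Group G] [Finite G]
    (Q : Subgroup G) (m : ℤ) : ∀ e : G → F, IsIdem e →
    (∀ f : G → F, IsBlk f → mulF e f = f → m ∣ YY ℓ Q f) → m ∣ YY ℓ Q e := by
  have hfact : Fact ℓ.Prime := ⟨hF.prime⟩
  intro e he
  refine H46.idem_induction (fun e => (∀ f : G → F, IsBlk f → mulF e f = f → m ∣ YY ℓ Q f) →
    m ∣ YY ℓ Q e) ?_ ?_ ?_ e he
  · intro _
    rw [H67.YY_zero hF Q]
    exact dvd_zero m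
  · intro b hb h
    exact h b hb hb.1.2
  · intro e₁ e₂ h1 h2 h12 p1 p2 h
    have h21 : mulF e₂ e₁ = 0 := by rw [← H46.mulF_comm h1.1, h12]
    have hd : ∀ f : G → F, mulF (e₁ + e₂) f = mulF e₁ f + mulF e₂ f := by
      intro f
      apply ma_injective
      rw [ma_mul, ma_add, ma_add, ma_mul, ma_mul, add_mul]
    have hz : ∀ f : G → F, mulF (0 : G → F) f = 0 := by
      intro f
      apply ma_injective
      rw [ma_mul, ma_zero, zero_mul]
    rw [H9.YY_add hF H94.nch H20.nls H20.brm H20.eig H20.ibf Q h1 h2 h12]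
    apply dvd_add
    · apply p1
      intro f hf hfe
      apply h f hf
      rw [hd, hfe]
      have : mulF e₂ f = 0 := by rw [← hfe, ← mulF_assoc, h21, hz]
      rw [this, add_zero]
    · apply p2
      intro f hf hfe
      apply h f hf
      rw [hd, hfe]
      have : mulF e₁ f = 0 := by rw [← hfe, ← mulF_assoc, h12, hz]
      rw [this, zero_add]

/-- `O_ℓ(G / O_ℓ(G)) = 1` -/
theorem opCore_quot (ℓ : ℕ) [Fact ℓ.Prime] (G : Type) [Group G] [Finite G]
    [(opCore ℓ G).Normal] : opCore ℓ (G ⧸ opCore ℓ G) = ⊥ := by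
  obtain ⟨h1, h2, h3⟩ := opCore_spec ℓ G
  obtain ⟨k1, k2, k3⟩ := opCore_spec ℓ (G ⧸ opCore ℓ G)
  set p : G →* G ⧸ opCore ℓ G := QuotientGroup.mk' (opCore ℓ G) with hp
  have hker : p.ker = opCore ℓ G := QuotientGroup.ker_mk' _
  have hsurj : Function.Surjective p := QuotientGroup.mk'_surjective (opCore ℓ G)
  have hkp : IsPGroup ℓ p.ker := by rw [hker]; exact h2
  have h4 : (opCore ℓ (G ⧸ opCore ℓ G)).comap p ≤ opCore ℓ G :=
    h3 _ (k1.comap p) ((H75.isPGroup_comap_iff hsurj hkp _).2 k2)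
  rw [eq_bot_iff]
  intro x hx
  obtain ⟨g, rfl⟩ := hsurj x
  have h5 : g ∈ opCore ℓ G := h4 hx
  rw [← hker, MonoidHom.mem_ker] at h5
  rw [h5]
  exact Subgroup.one_mem _

theorem subCl_ab : DF.SubCl Ab := by
  intro Q R _ _ j hj hR a b
  apply hj
  rw [map_mul, map_mul, hR]

/-- FIN -/
theorem fin (glu : GluStmt) : FinMLStmt := by
  classical
  intro ℓ hfact M _ hM G _ _ hc χ hχ hL hS
  let _ := Ideal.Quotient.field M
  have hℓ : ℓ.Prime := hfact.out
  have hF : GoodF ℓ (FF M) := H50.fld ℓ hℓ M hM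
  have hn : (opCore ℓ G).Normal := H75.opCore_normal (A := G) ℓ
  obtain ⟨e, he, h1, h2⟩ := H50.bid ℓ hℓ M hM G χ hχ
  set p : G →* G ⧸ opCore ℓ G := QuotientGroup.mk' (opCore ℓ G) with hp
  have hker : p.ker = opCore ℓ G := QuotientGroup.ker_mk' _
  have hsurj : Function.Surjective p := QuotientGroup.mk'_surjective (opCore ℓ G)
  have hkp : IsPGroup ℓ p.ker := by
    rw [hker]
    exact H75.opCore_isPGroup hℓ
  have hkc : p.ker ≤ Subgroup.center G := by
    rw [hker]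
    exact hc
  have hO : opCore ℓ (G ⧸ opCore ℓ G) = ⊥ := opCore_quot ℓ G
  have hpos : Pos ℓ (H75.push p e) (⊤ : Subgroup (G ⧸ opCore ℓ G)) :=
    H75.pos_push hℓ hM hsurj hker hkp hkc hχ he h1 hL
  have heq := H75.altSum_central H20.nls H20.brm H63.smt H94.nch
    (H50.dic H20.ibn H20.nls H20.brm) hℓ M hM hF hsurj hker hkp hkc χ hχ e he h1 h2
  have hdi : DF.DfIn ℓ M Ab χ := by
    obtain ⟨x, P, hx, hPC, hPp, hPi, hcomm⟩ := hS
    refine ⟨x, P, fun hr => hx ?_, hPC, hPp, hPi, P ⧸ ((opCore ℓ G).subgroupOf P),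
      inferInstance, QuotientGroup.mk' ((opCore ℓ G).subgroupOf P), ?_, ?_⟩
    · have hint : IsIntegral ℤ (omega (MonoidHom.id G) χ x) :=
        Pool.Agent.Helper51_AWC.omega_integral _ hχ x
      rw [← Pool.Agent.Helper79_WRA.red_eq_iff hint isIntegral_zero, hr,
        Pool.Agent.Helper79_WRA.red_zero]
    · intro a b
      obtain ⟨a, rfl⟩ := QuotientGroup.mk'_surjective ((opCore ℓ G).subgroupOf P) a
      obtain ⟨b, rfl⟩ := QuotientGroup.mk'_surjective ((opCore ℓ G).subgroupOf P) b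
      have h3 : QuotientGroup.mk' ((opCore ℓ G).subgroupOf P) (a * b * a⁻¹ * b⁻¹) = 1 := by
        rw [← MonoidHom.mem_ker, QuotientGroup.ker_mk', Subgroup.mem_subgroupOf]
        exact hcomm a a.2 b b.2
      rw [map_mul, map_mul, map_mul, map_inv, map_inv] at h3
      rw [← mul_inv_eq_one, mul_inv_rev, ← mul_assoc]
      exact h3
    · intro u
      rw [← MonoidHom.mem_ker, QuotientGroup.ker_mk', Subgroup.mem_subgroupOf]
  have hdf : DF.DfE ℓ Ab (H75.push p e) (⊤ : Subgroup (G ⧸ opCore ℓ G)) := by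
    rintro Q - hQ ⟨g, hg, hg'⟩
    refine DF.H43.core3 D1.H9.inv hℓ hM H50.fld subCl_ab hsurj hker hχ he h1 hdi Q hQ ?_
    intro h0
    apply hg'
    have h3 := congrFun h0 g
    unfold Pool.Agent.PP.br at h3
    rwa [if_pos hg] at h3
  have hidem : IsIdem (H75.push p e) := H75.push_isIdem hsurj he.1
  have hdiv : ((ℓ * Nat.card (G ⧸ opCore ℓ G) : ℕ) : ℤ) ∣
      YY ℓ (⊤ : Subgroup (G ⧸ opCore ℓ G)) (H75.push p e) := by
    apply add_dvd hF _ _ _ hidem
    intro f hf hef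
    have hfe : mulF f (H75.push p e) = f := by
      rw [H75.mulF_comm_cl hf.1.1]
      exact hef
    have hposf : Pos ℓ f ⊤ := H46.pos_mono hf.1 hfe hpos
    have hdff : DF.DfE ℓ Ab f ⊤ := DF.DfE.le hF hidem.1 hf.1.1 hef hdf
    obtain ⟨ϑ, hϑ, k1, k2, k3⟩ := H75.block_case H20.nls H20.brm H63.smt H94.nch
      (H50.dic H20.ibn H20.nls H20.brm) H50.bid H50.chp H50.ldp H50.fld hℓ hM hO hf hposf
    obtain ⟨c, hcc⟩ := glu ℓ M hM (G ⧸ opCore ℓ G) hO f hf hposf hdff ϑ hϑ k1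
    refine ⟨c, ?_⟩
    rw [← k3, hcc]
    push_cast
    ring
  obtain ⟨c, hcc⟩ := hdiv
  have hcard : Nat.card G = Nat.card (G ⧸ opCore ℓ G) * Nat.card (opCore ℓ G) :=
    Subgroup.card_eq_card_quotient_mul_card_subgroup (opCore ℓ G)
  rw [hcc, hker, hcard] at heq
  have hq : ((Nat.card (G ⧸ opCore ℓ G) : ℕ) : ℤ) ≠ 0 := by
    exact_mod_cast (Nat.card_pos (α := G ⧸ opCore ℓ G)).ne'
  have hz : ((Nat.card (opCore ℓ G) : ℕ) : ℤ) ≠ 0 := by
    exact_mod_cast (Nat.card_pos (α := opCore ℓ G)).ne'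
  refine ⟨c, mul_left_cancel₀ (mul_ne_zero hq hz) ?_⟩
  push_cast at heq ⊢
  rw [heq]
  ring

end Pool.Agent.PP.ML.H77
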